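import Pool.Agent.H28.UnitalMinor

set_option autoImplicit false

namespace Pool.Agent.Results.MP_e444a1_co.UnitalBlock

open Pool.Agent.H28.TangDefs

/-- For some odd prime power `q` there is a tangential 1-block over `GF(q)` with neither a
`U_{2,q+1}`-minor nor an `M(K_4)`-minor. -/
theorem result : ∃ (F : Type) (_ : Field F) (_ : Fintype F) (m : ℕ) (M : Matroid (Fin m)),
    Odd (Fintype.card F) ∧ Representable F M ∧ IsSimple M ∧ ¬ CritLE (Fintype.card F) 1 M ∧
    (∀ N : Matroid (Fin m), N.IsStrictMinor M → N.Loopless → CritLE (Fintype.card F) 1 N) ∧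
    (¬ ∃ N : Matroid (Fin m), N.IsMinor M ∧ ∃ g : Fin (Fintype.card F + 1) → Fin m,
      Function.Injective g ∧ Set.range g = N.E ∧
        ∀ I : Set (Fin (Fintype.card F + 1)), N.Indep (g '' I) ↔ I.ncard ≤ 2) ∧
    (¬ ∃ N : Matroid (Fin m), N.IsMinor M ∧ ∃ g : Sym2 (Fin 4) → Fin m,
      Set.InjOn g {e | ¬ e.IsDiag} ∧ g '' {e | ¬ e.IsDiag} = N.E ∧
        ∀ I ⊆ {e : Sym2 (Fin 4) | ¬ e.IsDiag},
          (N.Indep (g '' I) ↔ (SimpleGraph.fromEdgeSet I).IsAcyclic)) := by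
  refine ⟨Pool.Agent.H28.Unital.F9, inferInstance, inferInstance, 28, Pool.Agent.H28.Unital.M,
    by rw [Pool.Agent.H28.Unital.card_F9]; decide,
    ⟨3, _, Pool.Agent.H28.Crit.represents_of_rep Pool.Agent.H28.Unital.rep⟩,
    Pool.Agent.H28.Unital.simple, Pool.Agent.H28.Unital.block, fun N hN hl => ?_,
    Pool.Agent.H28.Unital.no_line, Pool.Agent.H28.Unital.no_K4⟩
  exact Pool.Agent.H28.Unital.crit_minor N hN fun e he => (N.isNonloop_of_loopless he).indep

end Pool.Agent.Results.MP_e444a1_co.UnitalBlock
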